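import Mathlib
import Pool.Agent.Y554.NE.Stm2

/-!
# Project NE: order at least `4/3` (Phragmen-Lindelof)
-/

set_option autoImplicit false

open Filter Topology Set

namespace Pool.Agent.Y363.NE

open Pool.Agent.Y554.NE

/-- growth bound with exponent at least one -/
theorem red {G : ℂ → ℂ} {A B σ : ℝ} (hG : Differentiable ℂ G)
    (h : ∀ w, ‖G w‖ ≤ A * Real.exp (B * ‖w‖ ^ σ)) :
    ∃ A' B' : ℝ, 0 < A' ∧ 0 < B' ∧ ∀ w, ‖G w‖ ≤ A' * Real.exp (B' * ‖w‖ ^ (max σ 1)) := by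
  obtain ⟨M, hM⟩ := (isCompact_closedBall (0 : ℂ) 1).exists_bound_of_continuousOn
    hG.continuous.continuousOn
  have hA : 0 ≤ A := by
    by_contra hcon
    push Not at hcon
    have h1 := h 0
    have h2 := norm_nonneg (G 0)
    have h3 : A * Real.exp (B * ‖(0 : ℂ)‖ ^ σ) < 0 := mul_neg_of_neg_of_pos hcon (Real.exp_pos _)
    linarith
  have hM0 : 0 ≤ |M| := abs_nonneg M
  refine ⟨A + |M| + 1, |B| + 1, by positivity, by positivity, fun w => ?_⟩
  have hexp : 1 ≤ Real.exp ((|B| + 1) * ‖w‖ ^ (max σ 1)) := Real.one_le_exp (by positivity)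
  rcases le_total ‖w‖ 1 with hw | hw
  · have h1 := hM w (by rw [mem_closedBall_zero_iff]; exact hw)
    have h2 := le_abs_self M
    calc ‖G w‖ ≤ (A + |M| + 1) * 1 := by linarith
      _ ≤ _ := mul_le_mul_of_nonneg_left hexp (by positivity)
  · refine (h w).trans ?_
    apply mul_le_mul (by linarith) _ (Real.exp_pos _).le (by positivity)
    apply Real.exp_le_exp.2
    have h1 : ‖w‖ ^ σ ≤ ‖w‖ ^ (max σ 1) := Real.rpow_le_rpow_of_exponent_le hw (le_max_left _ _)
    have h2 : (0 : ℝ) ≤ ‖w‖ ^ σ := Real.rpow_nonneg (norm_nonneg _) _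
    calc B * ‖w‖ ^ σ ≤ (|B| + 1) * ‖w‖ ^ σ :=
          mul_le_mul_of_nonneg_right (by linarith [le_abs_self B]) h2
      _ ≤ (|B| + 1) * ‖w‖ ^ (max σ 1) := mul_le_mul_of_nonneg_left h1 (by positivity)

theorem re_cpow_ge {z : ℂ} (hz : 0 ≤ z.re) {γ : ℝ} (h0 : 0 ≤ γ) (h1 : γ ≤ 1) :
    ‖z‖ ^ γ * Real.cos (γ * (Real.pi / 2)) ≤ (z ^ (γ : ℂ)).re := by
  rw [Complex.cpow_ofReal_re]
  apply mul_le_mul_of_nonneg_left _ (Real.rpow_nonneg (norm_nonneg _) _)
  have harg : |z.arg| ≤ Real.pi / 2 := Complex.abs_arg_le_pi_div_two_iff.2 hz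
  rw [← Real.cos_abs (z.arg * γ)]
  apply Real.cos_le_cos_of_nonneg_of_le_pi (abs_nonneg _)
  · have := Real.pi_pos
    nlinarith
  · rw [abs_mul, abs_of_nonneg h0, mul_comm]
    exact mul_le_mul_of_nonneg_left harg h0

theorem ord : S_ORD := by
  intro G c C A₀ B₀ σ₀ hc hσ₀ hG hneg hgr₀
  obtain ⟨A, B, hA, hB, hgr⟩ := red hG hgr₀
  set σ : ℝ := max σ₀ 1 with hσ
  have hσ1 : 1 ≤ σ := le_max_right _ _
  have hσ2 : σ < 4 / 3 := max_lt hσ₀ (by norm_num)
  have hσ0 : 0 < σ := by linarith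
  set β : ℝ := (3 / 4 + 1 / σ) / 2 with hβ
  have hi1 : 3 / 4 < 1 / σ := by
    rw [lt_div_iff₀ hσ0]
    linarith
  have hi2 : 1 / σ ≤ 1 := by
    rw [div_le_one hσ0]
    exact hσ1
  have hβ1 : 3 / 4 < β := by rw [hβ]; linarith
  have hβ2 : β < 1 / σ := by rw [hβ]; linarith
  have hβ0 : 0 < β := by linarith
  set γ : ℝ := β * σ with hγ
  have hγ0 : 0 < γ := mul_pos hβ0 hσ0
  have hγ1 : γ < 1 := by
    rw [lt_div_iff₀ hσ0] at hβ2
    exact hβ2
  have hcos : 0 < Real.cos (γ * (Real.pi / 2)) := by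
    have hpi := Real.pi_pos
    apply Real.cos_pos_of_mem_Ioo
    constructor
    · nlinarith
    · nlinarith
  set K : ℝ := B / Real.cos (γ * (Real.pi / 2)) with hK
  have hK0 : 0 < K := div_pos hB hcos
  set f : ℂ → ℂ := fun z => G (-(z ^ (β : ℂ))) * Complex.exp (-(K : ℂ) * z ^ (γ : ℂ)) with hf
  have hnorm : ∀ z : ℂ, ‖f z‖ = ‖G (-(z ^ (β : ℂ)))‖ * Real.exp (-K * (z ^ (γ : ℂ)).re) := by
    intro z
    rw [hf]
    simp only
    rw [norm_mul, Complex.norm_exp]
    congr 2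
    rw [← Complex.ofReal_neg, Complex.re_ofReal_mul]
  have hbd : ∀ z : ℂ, 0 ≤ z.re → ‖f z‖ ≤ A := by
    intro z hz
    rw [hnorm]
    have h1 := hgr (-(z ^ (β : ℂ)))
    rw [norm_neg, Complex.norm_cpow_real, ← Real.rpow_mul (norm_nonneg _)] at h1
    have h2 := re_cpow_ge hz hγ0.le hγ1.le
    have h3 : Real.exp (-K * (z ^ (γ : ℂ)).re) ≤ Real.exp (-(B * ‖z‖ ^ γ)) := by
      apply Real.exp_le_exp.2
      have h4 := mul_le_mul_of_nonneg_left h2 hK0.le
      have h5 : K * (‖z‖ ^ γ * Real.cos (γ * (Real.pi / 2))) = B * ‖z‖ ^ γ := by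
        rw [hK, div_mul_eq_mul_div, div_eq_iff hcos.ne']
        ring
      linarith
    calc ‖G (-(z ^ (β : ℂ)))‖ * Real.exp (-K * (z ^ (γ : ℂ)).re) ≤
        (A * Real.exp (B * ‖z‖ ^ γ)) * Real.exp (-(B * ‖z‖ ^ γ)) :=
          mul_le_mul h1 h3 (Real.exp_pos _).le (by positivity)
      _ = A := by rw [mul_assoc, ← Real.exp_add, add_neg_cancel, Real.exp_zero, mul_one]
  have hreβ : 0 < (β : ℂ).re := by rw [Complex.ofReal_re]; exact hβ0
  have hreγ : 0 < (γ : ℂ).re := by rw [Complex.ofReal_re]; exact hγ0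
  have hdc : DiffContOnCl ℂ f {z : ℂ | 0 < z.re} := by
    refine ⟨fun z hz => ?_, fun z hz => ?_⟩
    · have hz' : z ∈ Complex.slitPlane := Or.inl hz
      have d1 : DifferentiableAt ℂ (fun z : ℂ => z ^ (β : ℂ)) z :=
        differentiableAt_id.cpow_const hz'
      have d2 : DifferentiableAt ℂ (fun z : ℂ => z ^ (γ : ℂ)) z :=
        differentiableAt_id.cpow_const hz'
      have d3 : DifferentiableAt ℂ (fun z : ℂ => G (-(z ^ (β : ℂ)))) z :=
        (hG _).comp z d1.neg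
      exact (d3.mul ((d2.const_mul _).cexp)).differentiableWithinAt
    · have hz' : 0 ≤ z.re := by
        have h1 : closure {z : ℂ | 0 < z.re} ⊆ {z : ℂ | 0 ≤ z.re} :=
          closure_minimal (fun z hz => show (0 : ℝ) ≤ z.re from le_of_lt (show (0 : ℝ) < z.re from hz))
            (isClosed_le continuous_const Complex.continuous_re)
        exact h1 hz
      have d1 : ContinuousAt (fun z : ℂ => z ^ (β : ℂ)) z :=
        Complex.continuousAt_cpow_const_of_re_pos (Or.inl hz') hreβ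
      have d2 : ContinuousAt (fun z : ℂ => z ^ (γ : ℂ)) z :=
        Complex.continuousAt_cpow_const_of_re_pos (Or.inl hz') hreγ
      have d3 : ContinuousAt (fun z : ℂ => G (-(z ^ (β : ℂ)))) z :=
        ContinuousAt.comp (g := G) hG.continuous.continuousAt d1.neg
      have d4 : ContinuousAt (fun z : ℂ => Complex.exp (-(K : ℂ) * z ^ (γ : ℂ))) z :=
        (continuousAt_const.mul d2).cexp
      exact (d3.mul d4).continuousWithinAt
  have hC : 0 ≤ C := by
    have h1 := hneg 0 le_rfl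
    rw [Real.zero_rpow (by norm_num), mul_zero, neg_zero, Real.exp_zero, mul_one] at h1
    exact (norm_nonneg _).trans h1
  have hreal : ∀ x : ℝ, 0 ≤ x → ‖f (x : ℂ)‖ ≤ C * Real.exp (-(c * x ^ (β * (4 / 3)))) := by
    intro x hx
    rw [hnorm]
    have e1 : ((x : ℂ) ^ (β : ℂ)) = ((x ^ β : ℝ) : ℂ) := (Complex.ofReal_cpow hx β).symm
    have e2 : ((x : ℂ) ^ (γ : ℂ)) = ((x ^ γ : ℝ) : ℂ) := (Complex.ofReal_cpow hx γ).symm
    have h1 := hneg (x ^ β) (Real.rpow_nonneg hx _)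
    rw [← Real.rpow_mul hx, Complex.ofReal_neg] at h1
    rw [e1, e2, Complex.ofReal_re]
    have h2 : Real.exp (-K * x ^ γ) ≤ 1 := by
      apply Real.exp_le_one_iff.2
      have := Real.rpow_nonneg hx γ
      nlinarith
    calc _ ≤ (C * Real.exp (-(c * x ^ (β * (4 / 3))))) * 1 :=
          mul_le_mul h1 h2 (Real.exp_pos _).le (by positivity)
      _ = _ := mul_one _
  have hz0 : EqOn f 0 {z : ℂ | 0 ≤ z.re} := by
    refine PhragmenLindelof.eq_zero_on_right_half_plane_of_superexponential_decay hdc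
      ⟨1, by norm_num, 0, ?_⟩ ?_ ⟨A, fun x => hbd _ ?_⟩
    · refine Asymptotics.IsBigO.of_bound A ?_
      refine eventually_inf_principal.2 (Eventually.of_forall fun z hz => ?_)
      rw [zero_mul, Real.exp_zero, norm_one, mul_one]
      exact hbd z (le_of_lt hz)
    · intro n
      have hδ : 0 < β * (4 / 3) - 1 := by linarith
      have h1 : Tendsto (fun x : ℝ => c * x ^ (β * (4 / 3) - 1)) atTop atTop :=
        (tendsto_rpow_atTop hδ).const_mul_atTop hc
      have h2 : Tendsto (fun x : ℝ => C * Real.exp (-x)) atTop (𝓝 0) := by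
        have := Real.tendsto_exp_neg_atTop_nhds_zero.const_mul C
        rwa [mul_zero] at this
      refine squeeze_zero' (Eventually.of_forall fun x => by positivity) ?_ h2
      filter_upwards [h1.eventually_ge_atTop ((n : ℝ) + 1), eventually_gt_atTop 0] with x hx hx0
      have h3 := hreal x hx0.le
      have e1 : x ^ (β * (4 / 3)) = x ^ (β * (4 / 3) - 1) * x := by
        rw [← Real.rpow_add_one hx0.ne', sub_add_cancel]
      calc Real.exp x ^ n * ‖f (x : ℂ)‖ ≤
          Real.exp x ^ n * (C * Real.exp (-(c * x ^ (β * (4 / 3))))) :=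
            mul_le_mul_of_nonneg_left h3 (by positivity)
        _ = C * Real.exp (n * x + -(c * x ^ (β * (4 / 3)))) := by
            rw [Real.exp_add, ← Real.exp_nat_mul]
            ring
        _ ≤ C * Real.exp (-x) := by
            apply mul_le_mul_of_nonneg_left _ hC
            apply Real.exp_le_exp.2
            rw [e1]
            have h4 := mul_le_mul_of_nonneg_right hx hx0.le
            linarith
    · rw [Complex.mul_I_re, Complex.ofReal_im, neg_zero]
  have hzero : ∀ y : ℝ, 0 ≤ y → G ((-y : ℝ) : ℂ) = 0 := by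
    intro y hy
    have hx : 0 ≤ y ^ (1 / β) := Real.rpow_nonneg hy _
    have h1 := hz0 (show (0 : ℝ) ≤ ((y ^ (1 / β) : ℝ) : ℂ).re by rw [Complex.ofReal_re]; exact hx)
    have e1 : (((y ^ (1 / β) : ℝ) : ℂ) ^ (β : ℂ)) = (y : ℂ) := by
      rw [← Complex.ofReal_cpow hx β, ← Real.rpow_mul hy, one_div_mul_cancel hβ0.ne', Real.rpow_one]
    have h2 : G (-(((y ^ (1 / β) : ℝ) : ℂ) ^ (β : ℂ))) *
        Complex.exp (-(K : ℂ) * ((y ^ (1 / β) : ℝ) : ℂ) ^ (γ : ℂ)) = 0 := h1
    rw [e1] at h2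
    rw [Complex.ofReal_neg]
    exact (mul_eq_zero.1 h2).resolve_right (Complex.exp_ne_zero _)
  have han : AnalyticOnNhd ℂ G univ := fun z _ => hG.analyticAt z
  have hfr : ∃ᶠ z in 𝓝[≠] (0 : ℂ), G z = 0 := by
    have ht : Tendsto (fun n : ℕ => ((-(1 / ((n : ℝ) + 1)) : ℝ) : ℂ)) atTop (𝓝[≠] (0 : ℂ)) := by
      refine tendsto_nhdsWithin_iff.2 ⟨?_, Eventually.of_forall fun n => ?_⟩
      · have h1 : Tendsto (fun n : ℕ => -(1 / ((n : ℝ) + 1))) atTop (𝓝 0) := by
          have := tendsto_one_div_add_atTop_nhds_zero_nat (𝕜 := ℝ) |>.neg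
          rwa [neg_zero] at this
        have h2 := (Complex.continuous_ofReal.tendsto 0).comp h1
        rwa [Complex.ofReal_zero] at h2
      · intro h
        have h1 : (-(1 / ((n : ℝ) + 1)) : ℝ) = 0 := Complex.ofReal_eq_zero.1 h
        have h2 : (0 : ℝ) < 1 / ((n : ℝ) + 1) := by positivity
        linarith
    exact ht.frequently (Frequently.of_forall fun n => hzero _ (by positivity))
  have hfin := han.eqOn_zero_of_preconnected_of_frequently_eq_zero isPreconnected_univ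
    (mem_univ 0) hfr
  exact fun w => hfin (mem_univ w)

end Pool.Agent.Y363.NE
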